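import Mathlib

namespace Pool.Agent.P.MP_78b4c6_co

open Finset

/-- The 0-1 matrix of round `k`: the diagonal, and `i` points to `G k i m` for `m < r k`. -/
def mat (n : ℕ) (r : ℕ → ℕ) (G : ℕ → ℕ → ℕ → ℕ) (k : ℕ) : Matrix (Fin n) (Fin n) ℕ :=
  fun i j => if i = j ∨ ∃ m < r k, G k i m = j then 1 else 0

theorem mat_prod_inv (n t : ℕ) (r : ℕ → ℕ) (G : ℕ → ℕ → ℕ → ℕ) (K : ℕ → ℕ → ℕ → Prop)
    (hrefl : ∀ u, K 0 u u)
    (hmono : ∀ k < t, ∀ a < n, ∀ u < n, K k a u → K (k + 1) a u)
    (hstep : ∀ k < t, ∀ a < n, ∀ u < n, ∀ m < r k, K k a u → K (k + 1) a (G k u m))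
    (hval : ∀ k < t, ∀ u < n, ∀ m < r k, ¬ K k (G k u m) u) :
    ∀ k ≤ t, (∀ i, (List.ofFn fun l : Fin k => mat n r G l).prod i i = 1) ∧
      ∀ i j, (List.ofFn fun l : Fin k => mat n r G l).prod i j ≠ 0 → K k i j := by
  intro k
  induction k with
  | zero =>
    intro _
    refine ⟨fun i => by simp, fun i j h => ?_⟩
    have : i = j := by
      by_contra hne
      simp [Matrix.one_apply_ne hne] at h
    subst this
    exact hrefl _
  | succ k ih =>
    intro hk
    obtain ⟨h1, h2⟩ := ih (by omega)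
    have hp : (List.ofFn fun l : Fin (k + 1) => mat n r G l).prod =
        (List.ofFn fun l : Fin k => mat n r G l).prod * mat n r G k := by
      rw [List.ofFn_succ', List.prod_concat]
      simp
    rw [hp]
    constructor
    · intro i
      rw [Matrix.mul_apply, Finset.sum_eq_single i]
      · rw [h1]; simp [mat]
      · intro w _ hw
        by_contra hne
        obtain ⟨ha, hb⟩ := mul_ne_zero_iff.mp hne
        have hb' : ∃ m < r k, G k w m = i := by
          by_contra hc
          simp only [mat] at hb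
          rw [if_neg (not_or.mpr ⟨hw, hc⟩)] at hb
          exact hb rfl
        obtain ⟨m, hm, hG⟩ := hb'
        have := hval k (by omega) w w.2 m hm
        rw [hG] at this
        exact this (h2 i w ha)
      · simp
    · intro i j hne
      rw [Matrix.mul_apply] at hne
      obtain ⟨w, _, hw⟩ := Finset.exists_ne_zero_of_sum_ne_zero hne
      obtain ⟨ha, hb⟩ := mul_ne_zero_iff.mp hw
      have hb' : w = j ∨ ∃ m < r k, G k w m = j := by
        by_contra hc
        simp only [mat] at hb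
        rw [if_neg hc] at hb
        exact hb rfl
      rcases hb' with rfl | ⟨m, hm, hG⟩
      · exact hmono k (by omega) i i.2 w w.2 (h2 i w ha)
      · rw [← hG]
        exact hstep k (by omega) i i.2 w w.2 m hm (h2 i w ha)

theorem mat_row (n : ℕ) (r : ℕ → ℕ) (G : ℕ → ℕ → ℕ → ℕ) (k : ℕ) (i : Fin n)
    (hlt : ∀ m < r k, G k i m < n) (hne : ∀ m < r k, G k i m ≠ i)
    (hinj : ∀ m < r k, ∀ m' < r k, G k i m = G k i m' → m = m') :
    r k + 1 ≤ ∑ j, mat n r G k i j := by
  classical
  let f : Fin (r k) → Fin n := fun m => ⟨G k i m, hlt m m.2⟩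
  have hf : Function.Injective f := by
    intro a b h
    exact Fin.ext (hinj a a.2 b b.2 (congrArg Fin.val h))
  have hi : i ∉ Finset.univ.image f := by
    simp only [Finset.mem_image, not_exists, not_and]
    intro m _ h
    exact hne m m.2 (congrArg Fin.val h)
  have hc : (insert i (Finset.univ.image f)).card = r k + 1 := by
    rw [Finset.card_insert_of_notMem hi, Finset.card_image_of_injective _ hf]
    simp
  calc r k + 1 = ∑ j ∈ insert i (Finset.univ.image f), 1 := by rw [← hc]; simp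
    _ = ∑ j ∈ insert i (Finset.univ.image f), mat n r G k i j := by
        refine Finset.sum_congr rfl fun j hj => ?_
        simp only [mat]
        rw [if_pos]
        rcases Finset.mem_insert.mp hj with rfl | hj
        · exact Or.inl rfl
        · obtain ⟨m, _, rfl⟩ := Finset.mem_image.mp hj
          exact Or.inr ⟨m, m.2, rfl⟩
    _ ≤ ∑ j, mat n r G k i j := Finset.sum_le_sum_of_subset (Finset.subset_univ _)

/-- A gossip schedule on `n` people with `∑ r ≥ n` refutes the conjecture. -/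
theorem refute (n t : ℕ) (hn : 0 < n) (r : ℕ → ℕ) (G : ℕ → ℕ → ℕ → ℕ) (K : ℕ → ℕ → ℕ → Prop)
    (hrefl : ∀ k u, K k u u)
    (hmono : ∀ k < t, ∀ a < n, ∀ u < n, K k a u → K (k + 1) a u)
    (hstep : ∀ k < t, ∀ a < n, ∀ u < n, ∀ m < r k, K k a u → K (k + 1) a (G k u m))
    (hval : ∀ k < t, ∀ u < n, ∀ m < r k, ¬ K k (G k u m) u)
    (hlt : ∀ k < t, ∀ u < n, ∀ m < r k, G k u m < n)
    (hinj : ∀ k < t, ∀ u < n, ∀ m < r k, ∀ m' < r k, G k u m = G k u m' → m = m')
    (hori : ∀ k < t, ∀ u < n, ∀ m < r k, ∀ m' < r k, G k (G k u m) m' ≠ u)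
    (hsum : n ≤ ∑ k : Fin t, r k) :
    ¬ (∀ (n t : ℕ), 0 < n →
      ∀ (A : Fin t → Matrix (Fin n) (Fin n) ℕ) (r : Fin t → ℕ),
        (∀ k i j, A k i j = 0 ∨ A k i j = 1) →
        (∀ k i, A k i i = 1) →
        (∀ k i j, i ≠ j → A k i j = 1 → A k j i ≠ 1) →
        (∀ k i, r k + 1 ≤ ∑ j, A k i j) →
        n ≤ ∑ k, r k →
        n < Matrix.trace (List.ofFn A).prod) := by
  intro H
  have key := H n t hn (fun l => mat n r G l) (fun l => r l) ?_ ?_ ?_ ?_ hsum
  · have h1 := (mat_prod_inv n t r G K (hrefl 0) hmono hstep hval t le_rfl).1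
    simp only [Matrix.trace, Matrix.diag_apply, h1] at key
    simp at key
  · intro k i j
    simp only [mat]
    split_ifs <;> simp
  · intro k i
    simp [mat]
  · intro k i j hij h1 h2
    simp only [mat] at h1 h2
    have h1' : ∃ m < r k, G k i m = j := by
      by_contra hc
      rw [if_neg (not_or.mpr ⟨hij, hc⟩)] at h1
      exact absurd h1 (by norm_num)
    have h2' : ∃ m < r k, G k j m = i := by
      by_contra hc
      rw [if_neg (not_or.mpr ⟨hij.symm, hc⟩)] at h2
      exact absurd h2 (by norm_num)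
    obtain ⟨m, hm, e1⟩ := h1'
    obtain ⟨m', hm', e2⟩ := h2'
    exact hori k k.2 i i.2 m hm m' hm' (by rw [e1, e2])
  · intro k i
    refine mat_row n r G k i (hlt k k.2 i i.2) (fun m hm h => ?_) (hinj k k.2 i i.2)
    exact hval k k.2 i i.2 m hm (by rw [h]; exact hrefl _ _)

/-- One round of a growing schedule on `N` people: `b` (`b'`) people have been reached before
(after) it, `u` talks to `T u m` for `m < r`, and `K a u` (`K' a u`) contains the pairs such that
`u` has heard from `a` before (after) the round. -/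
structure Round (N r b b' : ℕ) (T : ℕ → ℕ → ℕ) (K K' : ℕ → ℕ → Prop) : Prop where
  hb : b ≤ b' ∧ b' ≤ N
  hmono : ∀ a < N, ∀ u < N, K a u → K' a u
  hstep : ∀ a < N, ∀ u < b, ∀ m < r, K a u → K' a (T u m)
  hval : ∀ u < b, ∀ m < r, ¬ K (T u m) u
  hlt : ∀ u < N, ∀ m < r, T u m < b'
  hinj : ∀ u < N, ∀ m < r, ∀ m' < r, T u m = T u m' → m = m'
  hori : ∀ u < N, ∀ v < N, ∀ m < r, ∀ m' < r, T u m = v → T v m' = u → (u < b ↔ v < b) → False

/-- Two copies of a growing schedule: people `u < b k` of a copy (the ones already reached) talk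
inside their copy, the others talk to reached people of the other copy. -/
theorem refute_two (N t : ℕ) (hN : 0 < N) (r b : ℕ → ℕ) (T : ℕ → ℕ → ℕ → ℕ)
    (K : ℕ → ℕ → ℕ → Prop)
    (hrefl : ∀ k u, K k u u)
    (hR : ∀ k < t, Round N (r k) (b k) (b (k + 1)) (T k) (K k) (K (k + 1)))
    (hsum : 2 * N ≤ ∑ k : Fin t, r k) :
    ¬ (∀ (n t : ℕ), 0 < n →
      ∀ (A : Fin t → Matrix (Fin n) (Fin n) ℕ) (r : Fin t → ℕ),
        (∀ k i j, A k i j = 0 ∨ A k i j = 1) →
        (∀ k i, A k i i = 1) →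
        (∀ k i j, i ≠ j → A k i j = 1 → A k j i ≠ 1) →
        (∀ k i, r k + 1 ≤ ∑ j, A k i j) →
        n ≤ ∑ k, r k →
        n < Matrix.trace (List.ofFn A).prod) := by
  have hb := fun k hk => (hR k hk).hb
  have hmono := fun k hk => (hR k hk).hmono
  have hstep := fun k hk => (hR k hk).hstep
  have hval := fun k hk => (hR k hk).hval
  have hlt := fun k hk => (hR k hk).hlt
  have hinj := fun k hk => (hR k hk).hinj
  have hori := fun k hk => (hR k hk).hori
  have e1 : ∀ x s : ℕ, s < 2 → (2 * x + s) / 2 = x := fun x s h => by omega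
  have e2 : ∀ x s : ℕ, s < 2 → (2 * x + s) % 2 = s := fun x s h => by omega
  refine refute (2 * N) t (by omega) r
    (fun k u m => 2 * T k (u / 2) m + if u / 2 < b k then u % 2 else 1 - u % 2)
    (fun k a u => (a % 2 = u % 2 ∧ K k (a / 2) (u / 2)) ∨ (a % 2 ≠ u % 2 ∧ u / 2 < b k))
    ?_ ?_ ?_ ?_ ?_ ?_ ?_ hsum
  · intro k u
    exact Or.inl ⟨rfl, hrefl _ _⟩
  · rintro k hk a ha u hu (⟨h1, h2⟩ | ⟨h1, h2⟩)
    · exact Or.inl ⟨h1, hmono k hk _ (by omega) _ (by omega) h2⟩
    · exact Or.inr ⟨h1, by have := hb k hk; omega⟩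
  · intro k hk a ha u hu m hm h
    have hl := hlt k hk (u / 2) (by omega) m hm
    by_cases hu' : u / 2 < b k
    · simp only [if_pos hu']
      rw [e1 _ _ (by omega), e2 _ _ (by omega)]
      rcases h with ⟨h1, h2⟩ | ⟨h1, h2⟩
      · exact Or.inl ⟨h1, hstep k hk _ (by omega) _ hu' m hm h2⟩
      · exact Or.inr ⟨h1, hl⟩
    · simp only [if_neg hu']
      rw [e1 _ _ (by omega), e2 _ _ (by omega)]
      rcases h with ⟨h1, h2⟩ | ⟨h1, h2⟩
      · exact Or.inr ⟨by omega, hl⟩
      · exact absurd h2 hu'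
  · intro k hk u hu m hm h
    by_cases hu' : u / 2 < b k
    · simp only [if_pos hu'] at h
      rw [e1 _ _ (by omega), e2 _ _ (by omega)] at h
      rcases h with ⟨_, h2⟩ | ⟨h1, _⟩
      · exact hval k hk _ hu' m hm h2
      · exact h1 rfl
    · simp only [if_neg hu'] at h
      rw [e1 _ _ (by omega), e2 _ _ (by omega)] at h
      rcases h with ⟨h1, _⟩ | ⟨_, h2⟩
      · omega
      · exact hu' h2
  · intro k hk u hu m hm
    have hl := hlt k hk (u / 2) (by omega) m hm
    have := hb k hk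
    split_ifs <;> omega
  · intro k hk u hu m hm m' hm' h
    exact hinj k hk (u / 2) (by omega) m hm m' hm' (by omega)
  · intro k hk u hu m hm m' hm' h
    have hl := hlt k hk (u / 2) (by omega) m hm
    have := hb k hk
    have hs : (if u / 2 < b k then u % 2 else 1 - u % 2) < 2 := by split_ifs <;> omega
    rw [e1 _ _ hs, e2 _ _ hs] at h
    refine hori k hk (u / 2) (by omega) (T k (u / 2) m) (by omega) m hm m' hm' rfl ?_ ?_
    · split_ifs at h <;> omega
    · split_ifs at h <;> omega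

end Pool.Agent.P.MP_78b4c6_co
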