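import Mathlib

set_option autoImplicit false

namespace Pool.Agent.P.MP_78b4c6_co.Lv

open Finset

variable {V : Type*} [Fintype V] [DecidableEq V]

/-- a transition kernel that always moves to an unknown vertex and carries knowledge along -/
structure Good (P : Matrix V V ℝ) (β γ : V → Finset V) : Prop where
  nonneg : ∀ x y, 0 ≤ P x y
  total : ∀ x, ∑ y, P x y = 1
  move : ∀ x y, P x y ≠ 0 → β x ⊆ γ y
  fresh : ∀ x y, P x y ≠ 0 → y ∉ β x
  stay : ∀ x, β x ⊆ γ x
  self : ∀ x, x ∈ β x

/-- a probability vector -/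
structure Prob (μ : V → ℝ) : Prop where
  nonneg : ∀ x, 0 ≤ μ x
  total : ∑ x, μ x = 1

/-- conditional entropy of the end point given the starting point -/
noncomputable def ent (μ : V → ℝ) (P : Matrix V V ℝ) : ℝ :=
  ∑ x, ∑ y, μ x * P x y * (-Real.log (P x y))

/-- expected knowledge -/
noncomputable def kn (μ : V → ℝ) (β : V → Finset V) : ℝ := ∑ x, μ x * ((β x).card : ℝ)

/-- push-forward of a distribution -/
noncomputable def push (μ : V → ℝ) (P : Matrix V V ℝ) : V → ℝ := fun y => ∑ x, μ x * P x y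

omit [DecidableEq V] in
theorem Good.mul {P Q : Matrix V V ℝ} {β γ δ : V → Finset V} (hP : Good P β γ)
    (hQ : Good Q γ δ) : Good (P * Q) β δ := by
  have key : ∀ x z, (P * Q) x z ≠ 0 → ∃ y, P x y ≠ 0 ∧ Q y z ≠ 0 := by
    intro x z h
    rw [Matrix.mul_apply] at h
    obtain ⟨y, -, hy⟩ := Finset.exists_ne_zero_of_sum_ne_zero h
    exact ⟨y, left_ne_zero_of_mul hy, right_ne_zero_of_mul hy⟩
  refine ⟨fun x z => ?_, fun x => ?_, fun x z h => ?_, fun x z h => ?_,
    fun x => (hP.stay x).trans (hQ.stay x), hP.self⟩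
  · rw [Matrix.mul_apply]
    exact sum_nonneg fun y _ => mul_nonneg (hP.nonneg x y) (hQ.nonneg y z)
  · simp only [Matrix.mul_apply]
    rw [sum_comm]
    simp only [← mul_sum, hQ.total, mul_one, hP.total]
  · obtain ⟨y, h1, h2⟩ := key x z h
    exact (hP.move x y h1).trans (hQ.move y z h2)
  · obtain ⟨y, h1, h2⟩ := key x z h
    exact fun hz => hQ.fresh y z h2 (hP.move x y h1 hz)

omit [DecidableEq V] in
theorem Prob.push {μ : V → ℝ} {P : Matrix V V ℝ} {β γ : V → Finset V} (hμ : Prob μ)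
    (hP : Good P β γ) : Prob (push μ P) := by
  refine ⟨fun y => sum_nonneg fun x _ => mul_nonneg (hμ.nonneg x) (hP.nonneg x y), ?_⟩
  unfold Lv.push
  rw [sum_comm]
  simp only [← mul_sum, hP.total, mul_one, hμ.total]

omit [DecidableEq V] in
theorem push_mul (μ : V → ℝ) (P Q : Matrix V V ℝ) : push μ (P * Q) = push (push μ P) Q := by
  funext z
  simp only [push, Matrix.mul_apply, mul_sum, sum_mul, mul_assoc]
  rw [sum_comm]

theorem tangent {m p q R l : ℝ} (hm : 0 ≤ m) (hp : 0 ≤ p) (hq : 0 ≤ q) (hR : p * q ≤ R)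
    (hl : 0 < l) :
    m * p * q * (-Real.log p) + m * p * q * (-Real.log q) ≤
      m * p * q * (-Real.log R) + m * p * q * (Real.log l - 1) +
        m * R * (if p ≠ 0 ∧ q ≠ 0 then 1 else 0) / l := by
  by_cases h : p ≠ 0 ∧ q ≠ 0
  · rw [if_pos h]
    have hp' : 0 < p := lt_of_le_of_ne hp (Ne.symm h.1)
    have hq' : 0 < q := lt_of_le_of_ne hq (Ne.symm h.2)
    have hR' : 0 < R := lt_of_lt_of_le (mul_pos hp' hq') hR
    have h1 := Real.log_le_sub_one_of_pos (show 0 < R / (p * q * l) by positivity)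
    rw [Real.log_div hR'.ne' (by positivity), Real.log_mul (by positivity) hl.ne',
      Real.log_mul hp'.ne' hq'.ne'] at h1
    have h2 := mul_le_mul_of_nonneg_left h1 (show 0 ≤ m * p * q by positivity)
    have h3 : m * p * q * (R / (p * q * l) - 1) = m * R * 1 / l - m * p * q := by
      field_simp
    rw [h3] at h2
    linarith
  · rw [if_neg h]
    have h0 : m * p * q = 0 := by
      by_cases hp0 : p = 0
      · simp [hp0]
      · have : q = 0 := by
          by_contra hq0
          exact h ⟨hp0, hq0⟩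
        simp [this]
    rw [h0]
    simp

theorem between {P Q : Matrix V V ℝ} {β γ δ : V → Finset V} (hP : Good P β γ)
    (hQ : Good Q γ δ) (x z : V) :
    (P * Q) x z * ∑ y, (if P x y ≠ 0 ∧ Q y z ≠ 0 then (1 : ℝ) else 0) ≤
      (P * Q) x z * (((δ z).card : ℝ) - (β x).card) := by
  by_cases h : (P * Q) x z = 0
  · simp [h]
  refine mul_le_mul_of_nonneg_left ?_ ((hP.mul hQ).nonneg x z)
  have hs : β x ⊆ δ z := (hP.mul hQ).move x z h
  rw [sum_boole, ← Nat.cast_sub (card_le_card hs), ← card_sdiff_of_subset hs]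
  refine Nat.cast_le.2 (card_le_card fun y hy => ?_)
  rw [mem_filter] at hy
  exact mem_sdiff.2 ⟨hQ.move y z hy.2.2 (hQ.self y), hP.fresh x y hy.2.1⟩

theorem ent_chain {P Q : Matrix V V ℝ} {β γ δ : V → Finset V} (hP : Good P β γ)
    (hQ : Good Q γ δ) {μ : V → ℝ} (hμ : Prob μ) {l : ℝ} (hl : 0 < l) :
    ent μ P + ent (push μ P) Q ≤
      ent μ (P * Q) + (Real.log l - 1) + (kn (push μ (P * Q)) δ - kn μ β) / l := by
  have e1 : ent μ P = ∑ x, ∑ z, ∑ y, μ x * P x y * Q y z * (-Real.log (P x y)) := by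
    refine sum_congr rfl fun x _ => ?_
    rw [sum_comm]
    refine sum_congr rfl fun y _ => ?_
    rw [← sum_mul, ← mul_sum, hQ.total, mul_one]
  have e2 : ent (push μ P) Q = ∑ x, ∑ z, ∑ y, μ x * P x y * Q y z * (-Real.log (Q y z)) := by
    simp only [ent, push, sum_mul]
    rw [sum_comm, sum_congr rfl fun z _ => sum_comm, sum_comm]
  have e3 : ent μ (P * Q) =
      ∑ x, ∑ z, ∑ y, μ x * P x y * Q y z * (-Real.log ((P * Q) x z)) := by
    refine sum_congr rfl fun x _ => sum_congr rfl fun z _ => ?_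
    rw [← sum_mul]
    congr 1
    simp only [Matrix.mul_apply, mul_sum, mul_assoc]
  have e4 : Real.log l - 1 = ∑ x, ∑ z, ∑ y, μ x * P x y * Q y z * (Real.log l - 1) := by
    simp only [← sum_mul]
    have : ∑ x, ∑ z, ∑ y, μ x * P x y * Q y z = 1 := by
      rw [← hμ.total]
      refine sum_congr rfl fun x _ => ?_
      have := (hP.mul hQ).total x
      simp only [Matrix.mul_apply] at this
      simp only [mul_assoc, ← mul_sum, this, mul_one]
    rw [this, one_mul]
  have e5 : kn (push μ (P * Q)) δ - kn μ β =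
      ∑ x, ∑ z, μ x * ((P * Q) x z * (((δ z).card : ℝ) - (β x).card)) := by
    simp only [kn, push, sum_mul, mul_sub, sum_sub_distrib]
    congr 1
    · rw [sum_comm]
      simp only [mul_assoc]
    · refine sum_congr rfl fun x _ => ?_
      rw [← mul_sum, ← sum_mul, (hP.mul hQ).total, one_mul]
  have e6 : ∑ x, ∑ z, ∑ y, μ x * (P * Q) x z * (if P x y ≠ 0 ∧ Q y z ≠ 0 then 1 else 0) / l ≤
      (kn (push μ (P * Q)) δ - kn μ β) / l := by
    simp only [← sum_div]
    refine div_le_div_of_nonneg_right ?_ hl.le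
    rw [e5]
    refine sum_le_sum fun x _ => sum_le_sum fun z _ => ?_
    rw [← mul_sum, mul_assoc]
    exact mul_le_mul_of_nonneg_left (between hP hQ x z) (hμ.nonneg x)
  refine le_trans ?_ (add_le_add_right e6 _)
  rw [e1, e2, e3]
  conv_rhs => rw [e4]
  simp only [← sum_add_distrib]
  refine sum_le_sum fun x _ => sum_le_sum fun z _ => sum_le_sum fun y _ => ?_
  refine tangent (hμ.nonneg x) (hP.nonneg x y) (hQ.nonneg y z) ?_ hl
  rw [Matrix.mul_apply]
  exact single_le_sum (f := fun y => P x y * Q y z)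
    (fun y _ => mul_nonneg (hP.nonneg x y) (hQ.nonneg y z)) (mem_univ y)

omit [DecidableEq V] in
theorem ent_le {P : Matrix V V ℝ} {β γ : V → Finset V} (hP : Good P β γ) {μ : V → ℝ}
    (hμ : Prob μ) (hV : 0 < Fintype.card V) : ent μ P ≤ Real.log (Fintype.card V) := by
  have hn : (0 : ℝ) < Fintype.card V := Nat.cast_pos.2 hV
  have h1 : ∀ x y, P x y * (-Real.log (P x y)) ≤
      P x y * (Real.log (Fintype.card V) - 1) + 1 / Fintype.card V := by
    intro x y
    rcases (hP.nonneg x y).eq_or_lt with h | h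
    · rw [← h]
      simp
    · have h1 := Real.log_le_sub_one_of_pos (show 0 < 1 / (P x y * Fintype.card V) by positivity)
      rw [Real.log_div one_ne_zero (by positivity), Real.log_mul h.ne' hn.ne', Real.log_one] at h1
      have h2 := mul_le_mul_of_nonneg_left h1 h.le
      have h3 : P x y * (1 / (P x y * Fintype.card V) - 1) = 1 / Fintype.card V - P x y := by
        field_simp
      rw [h3] at h2
      linarith
  have h2 : ∀ x, ∑ y, P x y * (-Real.log (P x y)) ≤ Real.log (Fintype.card V) := by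
    intro x
    refine (sum_le_sum fun y _ => h1 x y).trans (le_of_eq ?_)
    rw [sum_add_distrib, ← sum_mul, hP.total, sum_const, card_univ, nsmul_eq_mul]
    field_simp
    ring
  calc ent μ P = ∑ x, μ x * ∑ y, P x y * (-Real.log (P x y)) := by
        simp only [ent, mul_sum, mul_assoc]
    _ ≤ ∑ x, μ x * Real.log (Fintype.card V) :=
        sum_le_sum fun x _ => mul_le_mul_of_nonneg_left (h2 x) (hμ.nonneg x)
    _ = _ := by rw [← sum_mul, hμ.total, one_mul]

omit [DecidableEq V] in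
theorem kn_nonneg {μ : V → ℝ} (hμ : Prob μ) (β : V → Finset V) : 0 ≤ kn μ β :=
  sum_nonneg fun x _ => mul_nonneg (hμ.nonneg x) (Nat.cast_nonneg _)

omit [DecidableEq V] in
theorem kn_le {μ : V → ℝ} (hμ : Prob μ) (β : V → Finset V) : kn μ β ≤ Fintype.card V := by
  calc kn μ β ≤ ∑ x, μ x * (Fintype.card V : ℝ) :=
        sum_le_sum fun x _ => mul_le_mul_of_nonneg_left
          (Nat.cast_le.2 (card_le_univ _)) (hμ.nonneg x)
    _ = _ := by rw [← sum_mul, hμ.total, one_mul]

omit [DecidableEq V] in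
theorem kn_mono {μ : V → ℝ} (hμ : Prob μ) {β γ : V → Finset V} (h : ∀ x, β x ⊆ γ x) :
    kn μ β ≤ kn μ γ :=
  sum_le_sum fun x _ => mul_le_mul_of_nonneg_left
    (Nat.cast_le.2 (card_le_card (h x))) (hμ.nonneg x)

end Pool.Agent.P.MP_78b4c6_co.Lv
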