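import Pool.Agent.P.MP_78b4c6_co.LvTree

set_option autoImplicit false

namespace Pool.Agent.P.MP_78b4c6_co.Lv

open Finset

variable {V : Type*} [Fintype V] [DecidableEq V]

/-- a schedule without closing walk: `N k x` are the out-neighbours at step `k`, and `B k x` the
vertices that reach `x` before step `k` -/
structure Gos (t : ℕ) (r : ℕ → ℕ) (N B : ℕ → V → Finset V) : Prop where
  deg : ∀ k < t, ∀ x, r k ≤ (N k x).card
  move : ∀ k x, ∀ y ∈ N k x, B k x ⊆ B (k + 1) y
  fresh : ∀ k < t, ∀ x, ∀ y ∈ N k x, y ∉ B k x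
  stay : ∀ k x, B k x ⊆ B (k + 1) x
  self : ∀ k x, x ∈ B k x

omit [Fintype V] [DecidableEq V] in
theorem Gos.mono {t : ℕ} {r : ℕ → ℕ} {N B : ℕ → V → Finset V} (h : Gos t r N B) {a b : ℕ}
    (hab : a ≤ b) (x : V) : B a x ⊆ B b x := by
  induction b, hab using Nat.le_induction with
  | base => exact Subset.rfl
  | succ b _ ih => exact ih.trans (h.stay b x)

omit [Fintype V] [DecidableEq V] in
theorem Gos.select {t : ℕ} {r : ℕ → ℕ} {N B : ℕ → V → Finset V} (h : Gos t r N B) {a c ρ T : ℕ}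
    (hac : a ≤ c) (hc : c ≤ t) (hT : T ≤ ((Ico a c).filter fun k => ρ ≤ r k).card) :
    ∃ D β : ℕ → V → Finset V, (∀ s < T, ∀ x, (D s x).card = ρ) ∧
      (∀ s < T, ∀ x, ∀ y ∈ D s x, β s x ⊆ β (s + 1) y) ∧
      (∀ s < T, ∀ x, ∀ y ∈ D s x, y ∉ β s x) ∧ (∀ s x, β s x ⊆ β (s + 1) x) ∧
      (∀ s x, x ∈ β s x) ∧ (∀ x, B a x ⊆ β 0 x) ∧ ∀ x, β T x ⊆ B c x := by
  classical
  let p : ℕ → Prop := fun k => c ≤ k ∨ (a ≤ k ∧ ρ ≤ r k)
  have hp : (Set.ofPred p).Infinite :=
    (Set.Ici_infinite c).mono fun k hk => Or.inl hk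
  have hm := Nat.nth_strictMono hp
  have hcount : T ≤ Nat.count p c := by
    rw [Nat.count_eq_card_filter_range]
    refine hT.trans (card_le_card fun k hk => ?_)
    rw [mem_filter, mem_Ico] at hk
    exact mem_filter.2 ⟨mem_range.2 hk.1.2, Or.inr ⟨hk.1.1, hk.2⟩⟩
  have hlt : ∀ s < T, Nat.nth p s < c := fun s hs => Nat.nth_lt_of_lt_count (by omega)
  have hex : ∀ s x, ∃ D : Finset V, D ⊆ N (Nat.nth p s) x ∧ (s < T → D.card = ρ) := by
    intro s x
    by_cases hs : s < T
    · have h1 := hlt s hs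
      have h2 : ρ ≤ r (Nat.nth p s) := by
        rcases Nat.nth_mem_of_infinite hp s with h3 | h3
        · omega
        · exact h3.2
      obtain ⟨D, d1, d2⟩ := exists_subset_card_eq (h2.trans (h.deg _ (by omega) x))
      exact ⟨D, d1, fun _ => d2⟩
    · exact ⟨∅, empty_subset _, fun h => (hs h).elim⟩
  choose D hD1 hD2 using hex
  refine ⟨D, fun s => B (Nat.nth p s), fun s hs x => hD2 s x hs, fun s _ x y hy => ?_,
    fun s hs x y hy => h.fresh _ (by have := hlt s hs; omega) x y (hD1 s x hy),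
    fun s x => h.mono (hm.monotone (Nat.le_succ s)) x, fun s x => h.self _ x,
    fun x => h.mono ?_ x, fun x => h.mono ?_ x⟩
  · exact (h.move _ x y (hD1 s x hy)).trans (h.mono (hm (Nat.lt_succ_self s)) y)
  · rcases Nat.nth_mem_of_infinite hp 0 with h3 | h3
    · omega
    · exact h3.1
  · exact (hm.monotone hcount).trans (Nat.nth_count (p := p) (Or.inl le_rfl)).le

theorem Gos.level {t : ℕ} {r : ℕ → ℕ} {N B : ℕ → V → Finset V} (h : Gos t r N B)
    (hV : 0 < Fintype.card V) (ρ : ℕ) :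
    ρ * ((range t).filter fun k => ρ ≤ r k).card < 8 * Fintype.card V := by
  set M := ((range t).filter fun k => ρ ≤ r k).card with hM
  rcases Nat.eq_zero_or_pos ρ with rfl | hρ
  · omega
  rcases Nat.eq_zero_or_pos M with h0 | h0
  · rw [h0]
    omega
  obtain ⟨D, β, a1, a2, a3, a4, a5, -, -⟩ := h.select (a := 0) (c := t) (ρ := ρ)
    (T := 2 ^ Nat.log 2 M) (Nat.zero_le t) le_rfl
    (by rw [← range_eq_Ico]; exact Nat.pow_log_le_self 2 h0.ne')
  have b1 := block_bound hρ a1 a2 a3 a4 a5 hV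
  have b2 := Nat.lt_pow_succ_log_self one_lt_two M
  rw [pow_succ] at b2
  have b3 := Nat.mul_le_mul_left ρ b2.le
  rw [← mul_assoc] at b3
  omega

/-- the product of the first `s` matrices -/
def pre (A : ℕ → Matrix V V ℕ) : ℕ → Matrix V V ℕ
  | 0 => 1
  | s + 1 => pre A s * A s

theorem pre_eq (A : ℕ → Matrix V V ℕ) :
    ∀ t : ℕ, (List.ofFn fun i : Fin t => A i).prod = pre A t
  | 0 => by simp [pre]
  | t + 1 => by
    rw [List.ofFn_succ_last, List.prod_append, pre, ← pre_eq A t]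
    simp

theorem pre_step (A : ℕ → Matrix V V ℕ) (s : ℕ) (y x z : V) :
    pre A s y x * A s x z ≤ pre A (s + 1) y z := by
  rw [pre, Matrix.mul_apply]
  exact single_le_sum (f := fun x => pre A s y x * A s x z) (fun _ _ => Nat.zero_le _)
    (mem_univ x)

theorem pre_mono {A : ℕ → Matrix V V ℕ} (hA : ∀ k x, A k x x = 1) {a b : ℕ} (hab : a ≤ b)
    (y x : V) : pre A a y x ≤ pre A b y x := by
  induction b, hab using Nat.le_induction with
  | base => exact le_rfl
  | succ b _ ih => exact ih.trans (by simpa [hA] using pre_step A b y x x)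

theorem pre_self {A : ℕ → Matrix V V ℕ} (hA : ∀ k x, A k x x = 1) (s : ℕ) (x : V) :
    1 ≤ pre A s x x := by
  simpa [pre] using pre_mono hA (Nat.zero_le s) x x

theorem gos_of_trace {A : ℕ → Matrix V V ℕ} {t : ℕ} {r : ℕ → ℕ} (h0 : ∀ k x y, A k x y ≤ 1)
    (hA : ∀ k x, A k x x = 1) (hr : ∀ k < t, ∀ x, r k + 1 ≤ ∑ y, A k x y)
    (htr : Matrix.trace (pre A t) ≤ Fintype.card V) :
    Gos t r (fun k x => (univ.erase x).filter fun y => A k x y ≠ 0)
      fun k x => univ.filter fun y => pre A k y x ≠ 0 := by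
  refine ⟨fun k hk x => ?_, fun k x y hy z hz => ?_, fun k hk x y hy hz => ?_,
    fun k x z hz => ?_, fun k x => ?_⟩
  · have h1 := hr k hk x
    rw [← add_sum_erase _ _ (mem_univ x), hA, ← sum_filter_ne_zero] at h1
    have h2 := sum_le_card_nsmul ((univ.erase x).filter fun y => A k x y ≠ 0)
      (fun y => A k x y) 1 fun y _ => h0 k x y
    rw [smul_eq_mul, mul_one] at h2
    omega
  · simp only [mem_filter, mem_univ, true_and] at hy hz ⊢
    have h1 := pre_step A k z x y
    have h2 := Nat.mul_ne_zero hz hy.2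
    omega
  · simp only [mem_filter, mem_univ, true_and, mem_erase, and_true] at hy hz
    have h1 : 2 ≤ pre A (k + 1) y y := by
      rw [pre, Matrix.mul_apply]
      have h2 := sum_le_sum_of_subset (f := fun w => pre A k y w * A k w y)
        (subset_univ ({y, x} : Finset V))
      rw [sum_pair hy.1, hA, mul_one] at h2
      have h3 := Nat.mul_ne_zero hz hy.2
      have h4 := pre_self hA k y
      omega
    have h2 := h1.trans (pre_mono hA (show k + 1 ≤ t by omega) y y)
    have h3 : ∑ _x : V, 1 < ∑ x, pre A t x x :=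
      sum_lt_sum (fun x _ => pre_self hA t x) ⟨y, mem_univ y, h2⟩
    rw [sum_const, card_univ, smul_eq_mul, mul_one] at h3
    exact absurd htr (not_le.2 h3)
  · simp only [mem_filter, mem_univ, true_and] at hz ⊢
    have := pre_mono hA (Nat.le_add_right k 1) z x
    omega
  · simp only [mem_filter, mem_univ, true_and]
    have := pre_self hA k x
    omega

/-- a sequence of matrices whose product has trace at most `n` gives a schedule -/
theorem gos_of_fin {n t : ℕ} (A : Fin t → Matrix (Fin n) (Fin n) ℕ) (r : Fin t → ℕ)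
    (h0 : ∀ k i j, A k i j = 0 ∨ A k i j = 1) (hA : ∀ k i, A k i i = 1)
    (hr : ∀ k i, r k + 1 ≤ ∑ j, A k i j) (htr : ¬n < Matrix.trace (List.ofFn A).prod) :
    ∃ N B : ℕ → Fin n → Finset (Fin n),
      Gos t (fun k => if h : k < t then r ⟨k, h⟩ else 0) N B := by
  let A' : ℕ → Matrix (Fin n) (Fin n) ℕ := fun k => if h : k < t then A ⟨k, h⟩ else 1
  have e : A = fun i : Fin t => A' i := by
    funext i
    simp [A']
  refine ⟨_, _, gos_of_trace (A := A') (fun k x y => ?_) (fun k x => ?_) (fun k hk x => ?_) ?_⟩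
  · simp only [A']
    split_ifs with h
    · rcases h0 ⟨k, h⟩ x y with h1 | h1 <;> omega
    · rw [Matrix.one_apply]
      split_ifs <;> omega
  · simp only [A']
    split_ifs with h
    · exact hA _ x
    · simp
  · simp only [A', dif_pos hk]
    exact hr _ x
  · rw [← pre_eq, ← e, Fintype.card_fin]
    omega

theorem card_level {t : ℕ} (r : Fin t → ℕ) (ρ : ℕ) :
    (univ.filter fun k => ρ ≤ r k).card ≤
      ((range t).filter fun k => ρ ≤ if h : k < t then r ⟨k, h⟩ else 0).card := by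
  refine card_le_card_of_injOn (fun k => k.1) (fun k hk => ?_) fun a _ b _ h => Fin.ext h
  simp only [coe_filter, mem_univ, true_and, Set.mem_ofPred_eq, mem_range] at hk ⊢
  exact ⟨k.2, by rwa [dif_pos k.2]⟩

theorem level_bound {n t : ℕ} (hn : 0 < n) (A : Fin t → Matrix (Fin n) (Fin n) ℕ)
    (r : Fin t → ℕ) (h0 : ∀ k i j, A k i j = 0 ∨ A k i j = 1) (hA : ∀ k i, A k i i = 1)
    (hr : ∀ k i, r k + 1 ≤ ∑ j, A k i j) (ρ : ℕ)
    (hρ : 8 * n ≤ ρ * (univ.filter fun k => ρ ≤ r k).card) :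
    n < Matrix.trace (List.ofFn A).prod := by
  by_contra htr
  obtain ⟨N, B, h⟩ := gos_of_fin A r h0 hA hr htr
  have h1 := h.level (by simpa using hn) ρ
  have h2 := Nat.mul_le_mul_left ρ (card_level r ρ)
  rw [Fintype.card_fin] at h1
  omega

end Pool.Agent.P.MP_78b4c6_co.Lv
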