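import Pool.Agent.P.MP_78b4c6_co.LvMat

set_option autoImplicit false

namespace Pool.Agent.P.MP_78b4c6_co.Lv

open Finset

variable {V : Type*} [Fintype V] [DecidableEq V]

/-- the error term of one block -/
noncomputable def err (n : ℝ) (ρ : ℕ) : ℝ := ρ * (1 + 2 * (Real.log n - Real.log ρ))

theorem Gos.span {t : ℕ} {r : ℕ → ℕ} {N B : ℕ → V → Finset V} (h : Gos t r N B) {a c ρ : ℕ}
    (hac : a ≤ c) (hc : c ≤ t) (hρ : 0 < ρ) (hρn : ρ ≤ Fintype.card V) {μ : V → ℝ}
    (hμ : Prob μ) : ∃ μ', Prob μ' ∧ (ρ : ℝ) * ((Ico a c).filter fun k => ρ ≤ r k).card ≤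
      8 * (kn μ' (B c) - kn μ (B a)) + err (Fintype.card V) ρ := by
  set M := ((Ico a c).filter fun k => ρ ≤ r k).card with hM
  have hρ' : (0 : ℝ) < ρ := Nat.cast_pos.2 hρ
  have hl : Real.log ρ ≤ Real.log (Fintype.card V) :=
    Real.log_le_log hρ' (Nat.cast_le.2 hρn)
  have k0 : kn μ (B a) ≤ kn μ (B c) := kn_mono hμ (h.mono hac)
  unfold err
  rcases Nat.eq_zero_or_pos M with h0 | h0
  · refine ⟨μ, hμ, ?_⟩
    rw [h0, Nat.cast_zero, mul_zero]
    have : (0 : ℝ) ≤ ρ * (1 + 2 * (Real.log (Fintype.card V) - Real.log ρ)) :=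
      mul_nonneg hρ'.le (by linarith)
    linarith
  obtain ⟨D, β, a1, a2, a3, a4, a5, a6, a7⟩ := h.select (ρ := ρ) (T := 2 ^ Nat.log 2 M) hac hc
    (Nat.pow_log_le_self 2 h0.ne')
  set J := Nat.log 2 M
  obtain ⟨μ', hμ', H⟩ := block_gain hρ a1 a2 a3 a4 a5 hμ (hρ.trans_le hρn)
  have H1 := H (ρ / 4) (by positivity)
  rw [Real.log_div hρ'.ne' (by norm_num), show (4 : ℝ) = 2 ^ 2 by norm_num, Real.log_pow,
    pow_succ] at H1
  have b2 : (M : ℝ) + 1 ≤ 2 ^ J * 2 := by
    have := Nat.lt_pow_succ_log_self one_lt_two M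
    rw [pow_succ] at this
    exact_mod_cast this
  have l2 : 0 ≤ (J : ℝ) * Real.log 2 := mul_nonneg (Nat.cast_nonneg _) (Real.log_pos one_lt_two).le
  have hp : (0 : ℝ) < 1 / 2 ^ J := by positivity
  have hp1 : (1 : ℝ) / 2 ^ J ≤ 1 := by
    rw [div_le_one (by positivity)]
    exact one_le_pow₀ one_le_two
  have k1 : kn μ (B a) ≤ kn μ (β 0) := kn_mono hμ a6
  have k2 : kn μ' (β (2 ^ J)) ≤ kn μ' (B c) := kn_mono hμ' a7
  have key : ∀ Δ : ℝ, (kn μ' (β (2 ^ J)) - kn μ (β 0)) * (1 - 1 / 2 ^ J) ≤ Δ →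
      (ρ : ℝ) * M ≤ 8 * Δ + ρ * (1 + 2 * (Real.log (Fintype.card V) - Real.log ρ)) := by
    intro Δ hΔ
    have c1 := div_le_div_of_nonneg_right hΔ (show (0 : ℝ) ≤ ρ / 2 ^ 2 by positivity)
    have c2 : (2 : ℝ) ^ J - 1 ≤ Real.log (Fintype.card V) - Real.log ρ + Δ / (ρ / 2 ^ 2) := by
      push_cast at H1
      linarith
    have c3 := mul_le_mul_of_nonneg_left c2 hρ'.le
    have c4 : ρ * (Real.log (Fintype.card V) - Real.log ρ + Δ / (ρ / 2 ^ 2)) =
        ρ * (Real.log (Fintype.card V) - Real.log ρ) + 4 * Δ := by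
      field_simp
      ring
    have c5 := mul_le_mul_of_nonneg_left b2 hρ'.le
    rw [c4] at c3
    linarith
  rcases le_total 0 (kn μ' (β (2 ^ J)) - kn μ (β 0)) with d | d
  · exact ⟨μ', hμ', key _ (by nlinarith)⟩
  · exact ⟨μ, hμ, key _ (by nlinarith)⟩

theorem Gos.chain {t : ℕ} {r : ℕ → ℕ} {N B : ℕ → V → Finset V} (h : Gos t r N B)
    (hV : 0 < Fintype.card V) {τ ρ : ℕ → ℕ} (hτ : Monotone τ) (ht : ∀ i, τ i ≤ t)
    (hρ : ∀ i, 0 < ρ i) : ∀ p : ℕ, (∀ i < p, ρ i ≤ Fintype.card V) → ∃ μ, Prob μ ∧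
      ∑ i ∈ range p, (ρ i : ℝ) * ((Ico (τ i) (τ (i + 1))).filter fun k => ρ i ≤ r k).card ≤
        8 * kn μ (B (τ p)) + ∑ i ∈ range p, err (Fintype.card V) (ρ i)
  | 0, _ => by
    have hn : (0 : ℝ) < Fintype.card V := Nat.cast_pos.2 hV
    have hμ : Prob fun _ : V => 1 / (Fintype.card V : ℝ) :=
      ⟨fun _ => by positivity, by rw [sum_const, card_univ, nsmul_eq_mul]; field_simp⟩
    exact ⟨_, hμ, by simpa using kn_nonneg hμ _⟩
  | p + 1, hp => by
    obtain ⟨μ, hμ, H⟩ := h.chain hV hτ ht hρ p fun i hi => hp i (by omega)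
    obtain ⟨μ', hμ', H'⟩ := h.span (hτ (Nat.le_add_right p 1)) (ht (p + 1)) (hρ p)
      (hp p (by omega)) hμ
    refine ⟨μ', hμ', ?_⟩
    rw [sum_range_succ, sum_range_succ]
    linarith

theorem err_sum {n : ℕ} (hn : 0 < n) :
    ∑ i ∈ range (Nat.log 2 n + 1), err n (2 ^ i) ≤ 5.6 * n := by
  have hn' : (0 : ℝ) < n := Nat.cast_pos.2 hn
  have l1 := Real.log_two_lt_d9
  have l2 := Real.log_two_gt_d9
  have key : ∀ p : ℕ, ∑ i ∈ range p, err n (2 ^ i) ≤
      2 ^ p * (1 + 4 * Real.log 2 + 2 * (Real.log n - p * Real.log 2)) := by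
    intro p
    induction p with
    | zero =>
      have := Real.log_natCast_nonneg n
      simp only [range_zero, sum_empty, pow_zero, Nat.cast_zero]
      linarith
    | succ p ih =>
      rw [sum_range_succ, err]
      push_cast
      rw [Real.log_pow, pow_succ]
      linarith
  refine (key _).trans ?_
  set p := Nat.log 2 n + 1 with hp
  have h1 : (2 : ℝ) ^ p ≤ 2 * n := by
    have := Nat.pow_log_le_self 2 hn.ne'
    rw [hp, pow_succ, mul_comm]
    exact mul_le_mul_of_nonneg_left (by exact_mod_cast this) (by norm_num)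
  have h2 := Real.log_le_sub_one_of_pos (show 0 < (n : ℝ) / 2 ^ p by positivity)
  rw [Real.log_div hn'.ne' (by positivity), Real.log_pow] at h2
  have h3 := mul_le_mul_of_nonneg_left h2 (show (0 : ℝ) ≤ 2 ^ p by positivity)
  have h4 : (2 : ℝ) ^ p * (n / 2 ^ p - 1) = n - 2 ^ p := by field_simp
  rw [h4] at h3
  have h5 : (0 : ℝ) < 2 ^ p := by positivity
  nlinarith

theorem Gos.classes {t : ℕ} {r : ℕ → ℕ} {N B : ℕ → V → Finset V} (h : Gos t r N B)
    (hV : 0 < Fintype.card V) {τ ρ : ℕ → ℕ} (hτ : Monotone τ) (ht : ∀ i, τ i ≤ t)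
    (hρ : ∀ i, 0 < ρ i) {p : ℕ} (hp : ∀ i < p, ρ i ≤ Fintype.card V)
    (he : ∑ i ∈ range p, err (Fintype.card V) (ρ i) ≤ 5.6 * Fintype.card V)
    (hc : ∀ k < t, r k ≠ 0 → ∃ i < p, τ i ≤ k ∧ k < τ (i + 1) ∧ ρ i ≤ r k ∧ r k ≤ 2 * ρ i) :
    ∑ k ∈ range t, r k < 28 * Fintype.card V := by
  obtain ⟨μ, hμ, H⟩ := h.chain hV hτ ht hρ p hp
  have k1 := kn_le hμ (B (τ p))
  have hn : (0 : ℝ) < Fintype.card V := Nat.cast_pos.2 hV
  have s1 : ∑ k ∈ range t, r k ≤
      2 * ∑ i ∈ range p, ρ i * ((Ico (τ i) (τ (i + 1))).filter fun k => ρ i ≤ r k).card := by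
    calc ∑ k ∈ range t, r k ≤ ∑ k ∈ range t, ∑ i ∈ range p,
          if k ∈ (Ico (τ i) (τ (i + 1))).filter fun k => ρ i ≤ r k then 2 * ρ i else 0 := by
          refine sum_le_sum fun k hk => ?_
          rcases Nat.eq_zero_or_pos (r k) with h0 | h0
          · omega
          obtain ⟨i, hi, c1, c2, c3, c4⟩ := hc k (mem_range.1 hk) h0.ne'
          refine le_trans ?_ (single_le_sum (fun _ _ => Nat.zero_le _) (mem_range.2 hi))
          rwa [if_pos (mem_filter.2 ⟨mem_Ico.2 ⟨c1, c2⟩, c3⟩)]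
      _ ≤ _ := by
          rw [sum_comm, mul_sum]
          refine sum_le_sum fun i _ => ?_
          rw [sum_ite_mem, sum_const, smul_eq_mul, mul_comm, mul_assoc]
          refine Nat.mul_le_mul_left _ (Nat.mul_le_mul_left _ (card_le_card ?_))
          exact inter_subset_right
  have s2 := (Nat.cast_le (α := ℝ)).2 s1
  rw [← Nat.cast_lt (α := ℝ)]
  push_cast at s2 ⊢
  linarith

omit [DecidableEq V] in
theorem Gos.deg_le {t : ℕ} {r : ℕ → ℕ} {N B : ℕ → V → Finset V} (h : Gos t r N B)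
    (hV : 0 < Fintype.card V) {k : ℕ} (hk : k < t) : r k ≤ Fintype.card V := by
  obtain ⟨x⟩ := Fintype.card_pos_iff.1 hV
  exact (h.deg k hk x).trans (card_le_univ _)

theorem le_card_iff {t k : ℕ} {q : ℕ → Prop} [DecidablePred q] (hk : k < t)
    (hq : ∀ a b, a ≤ b → b < t → q b → q a) : k < ((range t).filter q).card ↔ q k := by
  constructor
  · intro h
    by_contra hn
    have : (range t).filter q ⊆ range k := fun j hj => by
      rw [mem_filter, mem_range] at hj
      by_contra hjk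
      exact hn (hq k j (by simpa using hjk) hj.1 hj.2)
    have := card_le_card this
    rw [card_range] at this
    omega
  · intro h
    have : range (k + 1) ⊆ (range t).filter q := fun j hj => by
      rw [mem_range] at hj
      exact mem_filter.2 ⟨mem_range.2 (by omega), hq j k (by omega) hk h⟩
    have := card_le_card this
    rwa [card_range] at this

theorem Gos.up {t : ℕ} {r : ℕ → ℕ} {N B : ℕ → V → Finset V} (h : Gos t r N B)
    (hV : 0 < Fintype.card V) (hr : ∀ a b, a ≤ b → b < t → r a ≤ r b) :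
    ∑ k ∈ range t, r k < 28 * Fintype.card V := by
  refine h.classes hV (τ := fun i => ((range t).filter fun k => r k < 2 ^ i).card)
    (ρ := fun i => 2 ^ i) (p := Nat.log 2 (Fintype.card V) + 1) (fun i j hij => ?_)
    (fun i => (card_filter_le _ _).trans (card_range t).le) (fun i => by positivity)
    (fun i hi => ?_) (err_sum hV) fun k hk h0 => ?_
  · exact card_le_card (monotone_filter_right _ fun k _ hk =>
      lt_of_lt_of_le hk (Nat.pow_le_pow_right two_pos hij))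
  · exact (Nat.pow_le_pow_right two_pos (by omega)).trans (Nat.pow_log_le_self 2 hV.ne')
  · have a1 := Nat.pow_log_le_self 2 h0
    have a2 := Nat.lt_pow_succ_log_self one_lt_two (r k)
    have q : ∀ i, k < ((range t).filter fun k => r k < 2 ^ i).card ↔ r k < 2 ^ i := fun i =>
      le_card_iff hk fun a b hab hb hq => lt_of_le_of_lt (hr a b hab hb) hq
    refine ⟨Nat.log 2 (r k), Nat.lt_succ_of_le (Nat.log_mono_right (h.deg_le hV hk)),
      not_lt.1 fun hh => ?_, (q _).2 a2, a1, ?_⟩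
    · have := (q _).1 hh
      omega
    · rw [pow_succ] at a2
      omega

theorem Gos.down {t : ℕ} {r : ℕ → ℕ} {N B : ℕ → V → Finset V} (h : Gos t r N B)
    (hV : 0 < Fintype.card V) (hr : ∀ a b, a ≤ b → b < t → r b ≤ r a) :
    ∑ k ∈ range t, r k < 28 * Fintype.card V := by
  set m := Nat.log 2 (Fintype.card V) with hm
  refine h.classes hV (τ := fun i => ((range t).filter fun k => 2 ^ (m + 1 - i) ≤ r k).card)
    (ρ := fun i => 2 ^ (m + 1 - 1 - i)) (p := m + 1) (fun i j hij => ?_)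
    (fun i => (card_filter_le _ _).trans (card_range t).le) (fun i => by positivity)
    (fun i hi => ?_) ?_ fun k hk h0 => ?_
  · exact card_le_card (monotone_filter_right _ fun k _ hk =>
      le_trans (Nat.pow_le_pow_right two_pos (by omega)) hk)
  · exact (Nat.pow_le_pow_right two_pos (by omega)).trans (Nat.pow_log_le_self 2 hV.ne')
  · rw [sum_range_reflect (fun i => err (Fintype.card V) (2 ^ i)) (m + 1)]
    exact err_sum hV
  · have a1 := Nat.pow_log_le_self 2 h0
    have a2 := Nat.lt_pow_succ_log_self one_lt_two (r k)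
    have a3 : Nat.log 2 (r k) ≤ m := Nat.log_mono_right (h.deg_le hV hk)
    have q : ∀ i, k < ((range t).filter fun k => 2 ^ i ≤ r k).card ↔ 2 ^ i ≤ r k := fun i =>
      le_card_iff hk fun a b hab hb hq => le_trans hq (hr a b hab hb)
    set l := Nat.log 2 (r k)
    have e1 : m + 1 - (m - l) = l + 1 := by omega
    have e2 : m + 1 - (m - l + 1) = l := by omega
    have e3 : m + 1 - 1 - (m - l) = l := by omega
    refine ⟨m - l, by omega, not_lt.1 fun hh => ?_, ?_, ?_, ?_⟩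
    · have := (q _).1 hh
      rw [e1] at this
      exact absurd a2 (not_lt.2 this)
    · rw [e2]
      exact (q _).2 a1
    · rw [e3]
      exact a1
    · rw [e3]
      rw [pow_succ] at a2
      omega

theorem mono_bound {n t : ℕ} (hn : 0 < n) (A : Fin t → Matrix (Fin n) (Fin n) ℕ)
    (r : Fin t → ℕ) (h0 : ∀ k i j, A k i j = 0 ∨ A k i j = 1) (hA : ∀ k i, A k i i = 1)
    (hr : ∀ k i, r k + 1 ≤ ∑ j, A k i j) (hm : Monotone r ∨ Antitone r)
    (hs : 28 * n ≤ ∑ k, r k) : n < Matrix.trace (List.ofFn A).prod := by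
  by_contra htr
  obtain ⟨N, B, h⟩ := gos_of_fin A r h0 hA hr htr
  have hV : 0 < Fintype.card (Fin n) := by simpa using hn
  have e : ∑ k, r k = ∑ k ∈ range t, if h : k < t then r ⟨k, h⟩ else 0 := by
    rw [← Fin.sum_univ_eq_sum_range (fun k => if h : k < t then r ⟨k, h⟩ else 0) t]
    simp
  have : ∑ k ∈ range t, (if h : k < t then r ⟨k, h⟩ else 0) < 28 * Fintype.card (Fin n) := by
    rcases hm with hm | hm
    · refine h.up hV fun a b hab hb => ?_
      rw [dif_pos hb, dif_pos (lt_of_le_of_lt hab hb)]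
      exact hm hab
    · refine h.down hV fun a b hab hb => ?_
      rw [dif_pos hb, dif_pos (lt_of_le_of_lt hab hb)]
      exact hm hab
  rw [Fintype.card_fin] at this
  omega

end Pool.Agent.P.MP_78b4c6_co.Lv
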