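import Pool.Agent.P.MP_78b4c6_co.LvEnt

set_option autoImplicit false

namespace Pool.Agent.P.MP_78b4c6_co.Lv

open Finset

variable {V : Type*} [Fintype V] [DecidableEq V]

/-- product of the `2 ^ j` kernels with indices from `a` on -/
noncomputable def dy (Q : ℕ → Matrix V V ℝ) : ℕ → ℕ → Matrix V V ℝ
  | 0, a => Q a
  | j + 1, a => dy Q j a * dy Q j (a + 2 ^ j)

omit [DecidableEq V] in
theorem dy_good {Q : ℕ → Matrix V V ℝ} {β : ℕ → V → Finset V} {T : ℕ}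
    (hQ : ∀ s < T, Good (Q s) (β s) (β (s + 1))) :
    ∀ j a, a + 2 ^ j ≤ T → Good (dy Q j a) (β a) (β (a + 2 ^ j))
  | 0, a, h => by
    simp only [dy, pow_zero] at h ⊢
    exact hQ a (by omega)
  | j + 1, a, h => by
    have e : a + 2 ^ (j + 1) = a + 2 ^ j + 2 ^ j := by ring
    rw [e] at h ⊢
    have h0 : 0 < 2 ^ j := by positivity
    exact (dy_good hQ j a (by omega)).mul (dy_good hQ j (a + 2 ^ j) h)

theorem dy_ent {Q : ℕ → Matrix V V ℝ} {β : ℕ → V → Finset V} {T : ℕ}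
    (hQ : ∀ s < T, Good (Q s) (β s) (β (s + 1))) {L : ℝ}
    (hL : ∀ s < T, ∀ μ, Prob μ → L ≤ ent μ (Q s)) {ν : ℝ} (hν : 0 < ν) :
    ∀ j a, a + 2 ^ j ≤ T → ∀ μ, Prob μ →
      2 ^ j * L ≤ ent μ (dy Q j a) + ((2 ^ j - 1) * (Real.log ν - 1) +
        (2 ^ (j + 1) - j - 2) * Real.log 2) +
        (kn (push μ (dy Q j a)) (β (a + 2 ^ j)) - kn μ (β a)) * (1 - 1 / 2 ^ j) / ν
  | 0, a, h, μ, hμ => by
    have := hL a (by simp at h; omega) μ hμ
    simp only [dy]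
    norm_num
    exact this
  | j + 1, a, h, μ, hμ => by
    have e : a + 2 ^ (j + 1) = a + 2 ^ j + 2 ^ j := by ring
    rw [e] at h ⊢
    have h0 : 0 < 2 ^ j := by positivity
    have g1 := dy_good hQ j a (by omega)
    have g2 := dy_good hQ j (a + 2 ^ j) h
    have i1 := dy_ent hQ hL hν j a (by omega) μ hμ
    have i2 := dy_ent hQ hL hν j (a + 2 ^ j) h _ (hμ.push g1)
    have i3 := ent_chain g1 g2 hμ (show 0 < ν * 2 ^ (j + 1) by positivity)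
    rw [Real.log_mul hν.ne' (by positivity), Real.log_pow] at i3
    rw [← push_mul] at i2
    simp only [dy]
    set k0 := kn μ (β a)
    set k1 := kn (push μ (dy Q j a)) (β (a + 2 ^ j))
    set k2 := kn (push μ (dy Q j a * dy Q j (a + 2 ^ j))) (β (a + 2 ^ j + 2 ^ j))
    have e1 : (k2 - k0) * (1 - 1 / 2 ^ (j + 1)) / ν = (k1 - k0) * (1 - 1 / 2 ^ j) / ν +
        (k2 - k1) * (1 - 1 / 2 ^ j) / ν + (k2 - k0) / (ν * 2 ^ (j + 1)) := by
      field_simp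
      ring
    rw [e1]
    push_cast at i3 ⊢
    have p1 : (2 : ℝ) ^ (j + 1) = 2 * 2 ^ j := by ring
    have p2 : (2 : ℝ) ^ (j + 1 + 1) = 4 * 2 ^ j := by ring
    rw [p2]
    rw [p1] at i1 i2 i3 ⊢
    linarith

/-- the uniform step to a set of `ρ` out-neighbours -/
noncomputable def unif (D : V → Finset V) (ρ : ℕ) : Matrix V V ℝ :=
  fun x y => if y ∈ D x then 1 / (ρ : ℝ) else 0

theorem unif_total {D : V → Finset V} {ρ : ℕ} (hρ : 0 < ρ) (hD : ∀ x, (D x).card = ρ) (x : V) :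
    ∑ y, unif D ρ x y = 1 := by
  have : (ρ : ℝ) ≠ 0 := Nat.cast_ne_zero.2 hρ.ne'
  simp only [unif]
  rw [sum_ite_mem, univ_inter, sum_const, hD, nsmul_eq_mul]
  field_simp

theorem unif_good {D β γ : V → Finset V} {ρ : ℕ} (hρ : 0 < ρ) (hD : ∀ x, (D x).card = ρ)
    (h1 : ∀ x, ∀ y ∈ D x, β x ⊆ γ y) (h2 : ∀ x, ∀ y ∈ D x, y ∉ β x) (h3 : ∀ x, β x ⊆ γ x)
    (h4 : ∀ x, x ∈ β x) : Good (unif D ρ) β γ := by
  have key : ∀ x y, unif D ρ x y ≠ 0 → y ∈ D x := fun x y h => by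
    by_contra hy
    exact h (if_neg hy)
  refine ⟨fun x y => ?_, unif_total hρ hD, fun x y h => h1 x y (key x y h),
    fun x y h => h2 x y (key x y h), h3, h4⟩
  unfold unif
  split_ifs <;> positivity

theorem unif_ent {D : V → Finset V} {ρ : ℕ} (hρ : 0 < ρ) (hD : ∀ x, (D x).card = ρ)
    {μ : V → ℝ} (hμ : Prob μ) : ent μ (unif D ρ) = Real.log ρ := by
  have h : ∀ x y, μ x * unif D ρ x y * (-Real.log (unif D ρ x y)) =
      μ x * unif D ρ x y * Real.log ρ := by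
    intro x y
    unfold unif
    split_ifs
    · rw [one_div, Real.log_inv, neg_neg]
    · simp
  simp only [ent, h, ← sum_mul, ← mul_sum, unif_total hρ hD, mul_one, hμ.total, one_mul]

/-- the local form: a block of `2 ^ J` steps of degree `ρ` forces a gain of knowledge -/
theorem block_gain {D β : ℕ → V → Finset V} {ρ J : ℕ} (hρ : 0 < ρ)
    (hD : ∀ s < 2 ^ J, ∀ x, (D s x).card = ρ)
    (h1 : ∀ s < 2 ^ J, ∀ x, ∀ y ∈ D s x, β s x ⊆ β (s + 1) y)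
    (h2 : ∀ s < 2 ^ J, ∀ x, ∀ y ∈ D s x, y ∉ β s x) (h3 : ∀ s x, β s x ⊆ β (s + 1) x)
    (h4 : ∀ s x, x ∈ β s x) {μ : V → ℝ} (hμ : Prob μ) (hV : 0 < Fintype.card V) :
    ∃ μ', Prob μ' ∧ ∀ ν : ℝ, 0 < ν → 2 ^ J * Real.log ρ ≤ Real.log (Fintype.card V) +
      ((2 ^ J - 1) * (Real.log ν - 1) + (2 ^ (J + 1) - J - 2) * Real.log 2) +
        (kn μ' (β (2 ^ J)) - kn μ (β 0)) * (1 - 1 / 2 ^ J) / ν := by
  have hQ : ∀ s < 2 ^ J, Good (unif (D s) ρ) (β s) (β (s + 1)) := fun s hs =>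
    unif_good hρ (hD s hs) (h1 s hs) (h2 s hs) (h3 s) (h4 s)
  have g := dy_good hQ J 0 (by omega)
  refine ⟨_, hμ.push g, fun ν hν => ?_⟩
  have := dy_ent hQ (L := Real.log ρ) (fun s hs μ hμ => (unif_ent hρ (hD s hs) hμ).ge) hν J 0
    (by omega) μ hμ
  rw [zero_add] at this
  linarith [ent_le g hμ hV]

theorem block_bound {D β : ℕ → V → Finset V} {ρ J : ℕ} (hρ : 0 < ρ)
    (hD : ∀ s < 2 ^ J, ∀ x, (D s x).card = ρ)
    (h1 : ∀ s < 2 ^ J, ∀ x, ∀ y ∈ D s x, β s x ⊆ β (s + 1) y)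
    (h2 : ∀ s < 2 ^ J, ∀ x, ∀ y ∈ D s x, y ∉ β s x) (h3 : ∀ s x, β s x ⊆ β (s + 1) x)
    (h4 : ∀ s x, x ∈ β s x) (hV : 0 < Fintype.card V) : ρ * 2 ^ J < 4 * Fintype.card V := by
  have hn : (0 : ℝ) < Fintype.card V := Nat.cast_pos.2 hV
  have hμ : Prob fun _ : V => 1 / (Fintype.card V : ℝ) :=
    ⟨fun _ => by positivity, by rw [sum_const, card_univ, nsmul_eq_mul]; field_simp⟩
  obtain ⟨μ', hμ', H⟩ := block_gain hρ hD h1 h2 h3 h4 hμ hV
  set n : ℝ := (Fintype.card V : ℝ) with hn'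
  have hp : (1 : ℝ) ≤ 2 ^ J := one_le_pow₀ one_le_two
  have hν : 0 < n / 2 ^ J := by positivity
  have H1 := H _ hν
  have k1 := kn_le hμ' (β (2 ^ J))
  have k2 := kn_nonneg hμ (β 0)
  have k3 : (kn μ' (β (2 ^ J)) - kn (fun _ : V => 1 / n) (β 0)) * (1 - 1 / 2 ^ J) / (n / 2 ^ J) ≤
      2 ^ J - 1 := by
    rw [div_le_iff₀ hν]
    have e : (2 ^ J - 1) * (n / 2 ^ J) = n * (1 - 1 / 2 ^ J) := by field_simp
    rw [e]
    refine mul_le_mul_of_nonneg_right (by linarith) ?_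
    rw [sub_nonneg, div_le_one (by positivity)]
    exact hp
  have l1 : Real.log n = Real.log (n / 2 ^ J) + J * Real.log 2 := by
    rw [Real.log_div hn.ne' (by positivity), Real.log_pow]
    ring
  have l2 : 0 < Real.log 2 := Real.log_pos one_lt_two
  have l3 : Real.log (4 * (n / 2 ^ J)) = 2 * Real.log 2 + Real.log (n / 2 ^ J) := by
    rw [Real.log_mul (by norm_num) hν.ne', show (4 : ℝ) = 2 ^ 2 by norm_num, Real.log_pow]
    norm_num
  have l4 : 2 ^ J * Real.log ρ < 2 ^ J * Real.log (4 * (n / 2 ^ J)) := by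
    rw [l3]
    rw [l1, pow_succ] at H1
    linarith
  have l5 := lt_of_mul_lt_mul_left l4 (by positivity)
  rw [Real.log_lt_log_iff (Nat.cast_pos.2 hρ) (by positivity), ← mul_div_assoc,
    lt_div_iff₀ (by positivity)] at l5
  rw [hn'] at l5
  exact_mod_cast l5

end Pool.Agent.P.MP_78b4c6_co.Lv
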