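import Pool.Agent.P.MP_78b4c6_co.Rounds

namespace Pool.Agent.P.MP_78b4c6_co

def rr : ℕ → ℕ
  | 0 => 1 | 1 => 1 | 2 => 1
  | 3 => 5 | 4 => 2 | 5 => 2
  | 6 => 15 | 7 => 7 | 8 => 7
  | 9 => 45 | 10 => 22 | 11 => 22
  | 12 => 121 | 13 => 60 | 14 => 60
  | 15 => 377 | 16 => 188 | 17 => 200
  | 18 => 27 | 19 => 13 | _ => 14

def bb : ℕ → ℕ
  | 0 => 0 | 1 => 3 | 2 => 3
  | 3 => 3 | 4 => 8 | 5 => 8
  | 6 => 8 | 7 => 23 | 8 => 23
  | 9 => 23 | 10 => 68 | 11 => 68
  | 12 => 68 | 13 => 189 | 14 => 189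
  | 15 => 189 | 16 => 566 | 17 => 566
  | _ => 595

def TT : ℕ → ℕ → ℕ → ℕ
  | 0 => TL 0 1 | 1 => TL 0 1 | 2 => TL 0 1
  | 3 => TL 3 2 | 4 => TL 3 2 | 5 => TL 3 2
  | 6 => TL 8 7 | 7 => TL 8 7 | 8 => TL 8 7
  | 9 => TL 23 22 | 10 => TL 23 22 | 11 => TL 23 22
  | 12 => TL 68 60 | 13 => TL 68 60 | 14 => TL 68 60
  | 15 => TL 189 188 | 16 => TL 189 188 | 17 => T17
  | 18 => T18 | _ => T19

def KK : ℕ → ℕ → ℕ → Prop
  | 0 => K0 0 | 1 => K1 0 1 | 2 => K2 0 1
  | 3 => K0 3 | 4 => K1 3 2 | 5 => K2 3 2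
  | 6 => K0 8 | 7 => K1 8 7 | 8 => K2 8 7
  | 9 => K0 23 | 10 => K1 23 22 | 11 => K2 23 22
  | 12 => K0 68 | 13 => K1 68 60 | 14 => K2 68 60
  | 15 => K0 189 | 16 => K1 189 188 | 17 => K2 189 188
  | 18 => K18 | 19 => K19 1 | 20 => K19 14
  | _ => fun _ _ => True

theorem KK_refl (k u : ℕ) : KK k u u := by
  unfold KK
  split <;> first | exact Or.inl rfl | trivial

theorem rounds : ∀ k < 21, Round 595 (rr k) (bb k) (bb (k + 1)) (TT k) (KK k) (KK (k + 1)) := by
  intro k hk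
  interval_cases k
  · exact round0 595 0 1 1 3 rfl (by omega) (by omega) (by omega)
  · exact round1 595 0 1 3 rfl (by omega)
  · exact round2 595 0 1 3 rfl (by omega)
  · exact round0 595 3 2 5 8 rfl (by omega) (by omega) (by omega)
  · exact round1 595 3 2 8 rfl (by omega)
  · exact round2 595 3 2 8 rfl (by omega)
  · exact round0 595 8 7 15 23 rfl (by omega) (by omega) (by omega)
  · exact round1 595 8 7 23 rfl (by omega)
  · exact round2 595 8 7 23 rfl (by omega)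
  · exact round0 595 23 22 45 68 rfl (by omega) (by omega) (by omega)
  · exact round1 595 23 22 68 rfl (by omega)
  · exact round2 595 23 22 68 rfl (by omega)
  · exact round0 595 68 60 121 189 rfl (by omega) (by omega) (by omega)
  · exact round1 595 68 60 189 rfl (by omega)
  · exact round2 595 68 60 189 rfl (by omega)
  · exact round0 595 189 188 377 566 rfl (by omega) (by omega) (by omega)
  · exact round1 595 189 188 566 rfl (by omega)
  · exact round17
  · exact round18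
  · exact round19
  · exact round20

theorem main :
    ¬ (∀ (n t : ℕ), 0 < n →
      ∀ (A : Fin t → Matrix (Fin n) (Fin n) ℕ) (r : Fin t → ℕ),
        (∀ k i j, A k i j = 0 ∨ A k i j = 1) →
        (∀ k i, A k i i = 1) →
        (∀ k i j, i ≠ j → A k i j = 1 → A k j i ≠ 1) →
        (∀ k i, r k + 1 ≤ ∑ j, A k i j) →
        n ≤ ∑ k, r k →
        n < Matrix.trace (List.ofFn A).prod) :=
  refute_two 595 21 (by omega) rr bb TT KK KK_refl rounds (by decide +kernel)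

end Pool.Agent.P.MP_78b4c6_co
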