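import Pool.Agent.P.MP_78b4c6_co.General

namespace Pool.Agent.P.MP_78b4c6_co

/-- Targets in the three rounds of a layer `[b, b + 2h + 1)`. -/
def TL (b h u j : ℕ) : ℕ :=
  if u < b then b + j
  else if u < b + 2 * h + 1 then
    if j < h then (if u + 1 + j < b + 2 * h + 1 then u + 1 + j else u + 1 + j - (2 * h + 1))
    else j - h
  else j

def K0 (b a u : ℕ) : Prop := a = u ∨ (a < b ∧ u < b)

def K1 (b h a u : ℕ) : Prop := a = u ∨ (a < b ∧ u < b + 2 * h + 1)

def K2 (b h a u : ℕ) : Prop :=
  a = u ∨ (a < b ∧ u < b + 2 * h + 1) ∨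
    (b ≤ a ∧ a < b + 2 * h + 1 ∧ b ≤ u ∧ u < b + 2 * h + 1 ∧
      ((a < u ∧ u ≤ a + h) ∨ u + h + 1 ≤ a))

theorem round0 (N b h r b' : ℕ) (hb' : b' = b + 2 * h + 1) (hN : b' ≤ N)
    (hr : r ≤ 2 * h + 1) (hr' : r ≤ b + h) :
    Round N r b b' (TL b h) (K0 b) (K1 b h) := by
  subst hb'
  constructor
  · omega
  · intro a ha u hu
    simp only [K0, K1]; omega
  · intro a ha u hu m hm
    simp only [K0, K1, TL, if_pos hu]; omega
  · intro u hu m hm
    simp only [K0, TL, if_pos hu]; omega
  · intro u hu m hm
    simp only [TL]; split_ifs <;> omega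
  · intro u hu m hm m' hm'
    simp only [TL]; split_ifs <;> omega
  · intro u hu v hv m hm m' hm'
    simp only [TL]; split_ifs <;> omega

theorem round1 (N b h b' : ℕ) (hb' : b' = b + 2 * h + 1) (hN : b' ≤ N) :
    Round N h b' b' (TL b h) (K1 b h) (K2 b h) := by
  subst hb'
  constructor
  · omega
  · intro a ha u hu
    simp only [K1, K2]; omega
  · intro a ha u hu m hm
    simp only [K1, K2, TL]; split_ifs <;> omega
  · intro u hu m hm
    simp only [K1, TL]; split_ifs <;> omega
  · intro u hu m hm
    simp only [TL]; split_ifs <;> omega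
  · intro u hu m hm m' hm'
    simp only [TL]; split_ifs <;> omega
  · intro u hu v hv m hm m' hm'
    simp only [TL]; split_ifs <;> omega

theorem round2 (N b h b' : ℕ) (hb' : b' = b + 2 * h + 1) (hN : b' ≤ N) :
    Round N h b' b' (TL b h) (K2 b h) (K0 b') := by
  subst hb'
  constructor
  · omega
  · intro a ha u hu
    simp only [K0, K2]; omega
  · intro a ha u hu m hm
    simp only [K0, K2, TL]; split_ifs <;> omega
  · intro u hu m hm
    simp only [K2, TL]; split_ifs <;> omega
  · intro u hu m hm
    simp only [TL]; split_ifs <;> omega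
  · intro u hu m hm m' hm'
    simp only [TL]; split_ifs <;> omega
  · intro u hu v hv m hm m' hm'
    simp only [TL]; split_ifs <;> omega

/-! The last four rounds: `A = [189, 566)` is a cycle of length `377 = 13 * 29`, and
`B = [566, 595)` a cycle of length `29`. -/

def T17 (u j : ℕ) : ℕ :=
  if u < 189 then 189 + j
  else if u < 566 then
    if j < 188 then 189 + (u - 189 + 1 + j) % 377
    else 566 + ((u - 189) / 13 + 1 + (j - 188)) % 29
  else j

def T18 (u j : ℕ) : ℕ :=
  if u < 189 then 189 + j
  else if u < 566 then 566 + ((u - 189) / 13 + 1 + j) % 29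
  else if j < 26 then 189 + (13 * (u - 566) + j) % 377
  else 566 + (u - 566 + 1) % 29

def T19 (u j : ℕ) : ℕ :=
  if u < 189 then 189 + j
  else if u < 566 then 566 + ((u - 189) / 13 + 1 + j) % 29
  else 566 + (u - 566 + 1 + j) % 29

def K18 (a u : ℕ) : Prop :=
  a = u ∨ a < 189 ∨ (a < 566 ∧ 189 ≤ u ∧ u < 566) ∨
    (a < 566 ∧ 566 ≤ u ∧ 2 ≤ ((a - 189) / 13 + 29 - (u - 566)) % 29)

def K19 (c a u : ℕ) : Prop :=
  a = u ∨ a < 189 ∨ (a < 566 ∧ 189 ≤ u) ∨
    (566 ≤ a ∧ 189 ≤ u ∧ u < 566 ∧ ((u - 189) / 13 + 29 - (a - 566)) % 29 ≤ 1) ∨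
    (566 ≤ a ∧ 566 ≤ u ∧ (u + 29 - a) % 29 ≤ c)

theorem round17 : Round 595 200 566 595 T17 (K2 189 188) K18 := by
  constructor
  · omega
  · intro a ha u hu
    simp only [K2, K18]; omega
  · intro a ha u hu m hm
    simp only [K2, K18, T17]
    split_ifs with h1 h2
    · omega
    · omega
    · have e1 : 13 * ((u - 189) / 13) ≤ u - 189 ∧ u - 189 < 13 * ((u - 189) / 13) + 13 := by omega
      have e2 : (u - 189) / 13 < 29 := by omega
      generalize (u - 189) / 13 = g at *
      interval_cases g <;> omega
  · intro u hu m hm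
    simp only [K2, T17]; split_ifs <;> omega
  · intro u hu m hm
    simp only [T17]; split_ifs <;> omega
  · intro u hu m hm m' hm'
    simp only [T17]; split_ifs <;> omega
  · intro u hu v hv m hm m' hm'
    simp only [T17]; split_ifs <;> omega

theorem round18 : Round 595 27 595 595 T18 K18 (K19 1) := by
  constructor
  · omega
  · intro a ha u hu
    simp only [K19, K18]; omega
  · intro a ha u hu m hm
    simp only [K19, K18, T18]
    split_ifs with h1 h2 h3
    · omega
    · omega
    · obtain ⟨y, rfl⟩ : ∃ y, u = 566 + y := ⟨u - 566, by omega⟩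
      have e2 : y < 29 := by omega
      interval_cases y <;> omega
    · omega
  · intro u hu m hm
    simp only [K18, T18]; split_ifs <;> omega
  · intro u hu m hm
    simp only [T18]; split_ifs <;> omega
  · intro u hu m hm m' hm'
    simp only [T18]; split_ifs <;> omega
  · intro u hu v hv m hm m' hm'
    simp only [T18]; split_ifs <;> omega

theorem round19 : Round 595 13 595 595 T19 (K19 1) (K19 14) := by
  constructor
  · omega
  · intro a ha u hu
    simp only [K19]; omega
  · intro a ha u hu m hm
    simp only [K19, T19]; split_ifs <;> omega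
  · intro u hu m hm
    simp only [K19, T19]; split_ifs <;> omega
  · intro u hu m hm
    simp only [T19]; split_ifs <;> omega
  · intro u hu m hm m' hm'
    simp only [T19]; split_ifs <;> omega
  · intro u hu v hv m hm m' hm'
    simp only [T19]; split_ifs <;> omega

theorem round20 : Round 595 14 595 595 T19 (K19 14) (fun _ _ => True) := by
  constructor
  · omega
  · intro a ha u hu _
    trivial
  · intro a ha u hu m hm _
    trivial
  · intro u hu m hm
    simp only [K19, T19]; split_ifs <;> omega
  · intro u hu m hm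
    simp only [T19]; split_ifs <;> omega
  · intro u hu m hm m' hm'
    simp only [T19]; split_ifs <;> omega
  · intro u hu v hv m hm m' hm'
    simp only [T19]; split_ifs <;> omega

end Pool.Agent.P.MP_78b4c6_co
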